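import Mathlib
import Pool.Agent.KTB.StmtsKB

set_option autoImplicit false

/-! Row TGD of the squad KTB: the largest tight sets. -/

namespace Pool.Agent.KTB.H95

open Finset Pool.Agent.KTB
open scoped Classical

theorem inc_mem {ι κ : Type} {r : Finset ι → ℕ} {E : κ → Finset ι} {C : Finset κ} {j : κ}
    (hj : j ∈ C) {y : ι} (hy : y ∈ E j) : Inc r E C y := by
  have h1 : y ∈ C.biUnion E := Finset.mem_biUnion.2 ⟨j, hj, hy⟩
  unfold Inc
  rw [Finset.insert_eq_self.2 h1]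

theorem inc_mono {ι κ : Type} {r : Finset ι → ℕ} {E : κ → Finset ι} {K : Finset κ}
    (tga : TgaStmt) (h : Rks r E K) {C C' : Finset κ} (hC : C ⊆ C') {y : ι} (hy : Inc r E C y) :
    Inc r E C' y :=
  (tga ι κ r E K h).2.1 (C.biUnion E) (C'.biUnion E) (Finset.biUnion_subset_biUnion_of_subset_left E hC)
    y hy

theorem tgd (tga : TgaStmt) (tgb : TgbStmt) (tgc : TgcStmt) (tgm : TgmStmt) : TgdStmt := by
  intro ι κ r E K h
  constructor
  · intro k hk h3 t ht t' ht' hne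
    rw [Finset.disjoint_left]
    intro j hj hj'
    obtain ⟨a1, a2, a3⟩ := tgm ι κ r E K h k hk t ht ⟨j, hj⟩
    obtain ⟨b1, b2, b3⟩ := tgm ι κ r E K h k hk t' ht' ⟨j, hj'⟩
    have hjK : j ∈ K := a1.1 hj
    have hne' : (E j).Nonempty := by
      rw [← Finset.card_pos]
      have := h.two j hjK
      omega
    obtain ⟨y, hy⟩ := hne'
    have hT := tgb ι κ r E K h _ _ y a1 b1 (h.non j hjK y hy) (inc_mem hj hy) (inc_mem hj' hy)
    refine tgc ι κ r E K h _ k t t' hT hk ?_ h3 ht ht' hne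
      (inc_mono tga h Finset.subset_union_left a3) (inc_mono tga h Finset.subset_union_right b3)
    rw [Finset.mem_union, not_or]
    exact ⟨a2, b2⟩
  · intro k₀ hk₀ t₀ ht₀ k₁ hk₁ t₁ ht₁ hn hk
    obtain ⟨a1, a2, a3⟩ := tgm ι κ r E K h k₀ hk₀ t₀ ht₀ ⟨k₁, hk₁⟩
    have hk₁K : k₁ ∈ K := a1.1 hk₁
    obtain ⟨b1, b2, b3⟩ := tgm ι κ r E K h k₁ hk₁K t₁ ht₁ hn
    have hT := tgb ι κ r E K h _ _ t₁ a1 b1 (h.non k₁ hk₁K t₁ ht₁) (inc_mem hk₁ ht₁) b3
    have hsub : Btt r E K k₀ t₀ ∪ Btt r E K k₁ t₁ ⊆ Btt r E K k₀ t₀ := by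
      intro j hj
      have hjK : j ∈ K := hT.1 hj
      have hmem : j ∈ Btt r E K k₀ t₀ ↔ j ∈ K ∧
          ∃ C, Tgt r E K C ∧ k₀ ∉ C ∧ Inc r E C t₀ ∧ j ∈ C := by
        unfold Btt
        rw [Finset.mem_filter]
      rw [hmem]
      refine ⟨hjK, _, hT, ?_, inc_mono tga h Finset.subset_union_left a3, hj⟩
      rw [Finset.mem_union, not_or]
      exact ⟨a2, hk⟩
    apply Finset.card_lt_card
    rw [Finset.ssubset_iff_of_subset (fun j hj => hsub (Finset.mem_union_right _ hj))]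
    exact ⟨k₁, hk₁, b2⟩

end Pool.Agent.KTB.H95
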