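import Mathlib
import Pool.Agent.KTB.StmtsKC

set_option autoImplicit false

/-! Row NTH of the squad KTB: the main step for all nullities. -/

namespace Pool.Agent.KTB.H95

open Finset Pool.Agent.KTB
open scoped Classical

theorem nth (ray : RayStmt) (bas : BasStmt) (nst : NstStmt) : NthStmt := by
  intro ι T _ D S R K μ
  have main : ∀ (n : ℕ) (S R : Finset ι) (K : Finset T), D.nul S = n → D.NH S R K μ →
      D.NC S R K := by
    intro n
    induction n using Nat.strong_induction_on with
    | _ n ih =>
      intro S R K hn h
      obtain ⟨p, f, hvd⟩ := h.vd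
      have h1 : D.nul (S \ R) + 1 = D.nul S := (ray ι T D S R p f hvd.2.1 hvd.1).2.2.2.2.1
      have h2 : μ ≤ D.nul (S \ R) :=
        h.min (S \ R) (Relation.ReflTransGen.single ⟨R, h.vd, rfl⟩)
      by_cases h3 : D.nul S = μ + 1
      · exact bas ι T D S R K μ h h3
      · refine nst ι T D S R K μ ?_ h (by omega)
        intro S' R' K' hlt h'
        exact ih (D.nul S') (by omega) S' R' K' rfl h'
  exact main (D.nul S) S R K rfl

end Pool.Agent.KTB.H95
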